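import Pool.Agent.Helper99.MKV.GoalsC

/-!
# Packet MKV YYB (MP_f41a60_pr): bounds for the corrector `YY`
-/

set_option autoImplicit false

open Finset

namespace Pool.Agent.Helper59.MKV

open Pool.Agent.Helper99.MKV Pool.Agent.Helper99.EXC Pool.Agent.Helper99.ERW

theorem Gk_nonneg (b k : ℕ) (x : Site 2) : 0 ≤ Gk b k x := by
  unfold Gk
  split_ifs
  · positivity
  · have h : 0 ≤ nm x := by
      unfold nm
      exact le_max_of_le_left (abs_nonneg _)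
    positivity

theorem Bx_sub (b k : ℕ) : Bx b k ⊆ Bx b (k + 1) := by
  intro x hx
  unfold Bx at hx ⊢
  rw [mem_box] at hx ⊢
  intro i
  have h := hx i
  have h2 : ((b * 2 ^ k : ℕ) : ℤ) ≤ ((b * 2 ^ (k + 1) : ℕ) : ℤ) := by
    have : b * 2 ^ k ≤ b * 2 ^ (k + 1) :=
      Nat.mul_le_mul_left _ (Nat.pow_le_pow_right (by norm_num) (Nat.le_succ k))
    exact_mod_cast this
  exact le_trans h h2

theorem Gk_in (b k : ℕ) (x : Site 2) (hx : x ∈ Bx b k) : Gk b k x = 1 / 2 ^ k := by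
  unfold Gk
  rw [if_pos (Bx_sub b k hx)]

theorem succ_div_four (k : ℕ) : ((k : ℝ) + 1) / 4 ^ k ≤ 1 / 2 ^ k := by
  have h1 : ((k : ℝ) + 1) ≤ 2 ^ k := by
    have : k + 1 ≤ 2 ^ k := Nat.lt_two_pow_self
    exact_mod_cast this
  have h2 : (4 : ℝ) ^ k = 2 ^ k * 2 ^ k := by
    rw [← mul_pow]; norm_num
  rw [h2, div_le_div_iff₀ (by positivity) (by positivity)]
  have h3 : (0 : ℝ) < 2 ^ k := by positivity
  nlinarith [mul_le_mul_of_nonneg_right h1 h3.le]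

theorem abs_sub_le_two {x y B : ℝ} (hx : |x| ≤ B) (hy : |y| ≤ B) : |x - y| ≤ 2 * B := by
  have := abs_sub x y
  linarith

theorem VV_scale {E : Type*} (c : ℝ) (g : Site 2 → E → ℝ) (D : Finset (Site 2)) (v : Site 2 → ℝ)
    (t : MSt E) : VV (fun z e => c * g z e) D v t = c * VV g D v t := by
  unfold VV
  rw [Finset.mul_sum]
  exact Finset.sum_congr rfl fun z _ => by ring

theorem BL_eq {E : Type*} (g g' : Site 2 → E → ℝ) (D D' : Finset (Site 2)) (h : Site 2 → ℝ)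
    (K : Site 2 → Site 2 → ℝ) (t : MSt E) :
    BL g g' D D' (fun y z => h z * K y z) t =
      ∑ y ∈ D, g y (t.2 y) * ∑ z ∈ D', (h z * g' z (t.2 z)) * K y z := by
  unfold BL
  refine Finset.sum_congr rfl fun y _ => ?_
  rw [Finset.mul_sum]
  exact Finset.sum_congr rfl fun z _ => by ring

theorem YYB (_hSMS : SMS_stmt) (hINC : INC_stmt) (hPSA : PSA_stmt) (hBDZ : BDZ_stmt)
    (hYVB : YVB_stmt) : YYB_stmt := by
  intro κ C b B hκ hC hb hB
  obtain ⟨C1, hC1, H1⟩ := hYVB κ C b B hκ hC hb hB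
  obtain ⟨C2, hC2, H2⟩ := hPSA κ C b hb
  obtain ⟨C3, hC3, H3⟩ := hBDZ κ C b B hκ hC hb hB
  have hC0 : 0 ≤ C := by linarith
  have hB0 : 0 ≤ B := by linarith
  refine ⟨C1 * C + 2 * C3 * C + 8 * B ^ 2 * C * C2, by positivity, ?_⟩
  intro E ι _ U a BR S R T ep φ Φ k1 hDat hScx hPoi m k s hmk hks t
  have hk1 : k1 ≤ k := by omega
  have hj1 : k1 ≤ k - m := by omega
  have hj2 : k - m ≤ k := Nat.sub_le _ _
  have hWt : Wt b k C (hk Φ k) :=
    ⟨hC0, hScx.hS k hk1, hScx.h1 k hk1, hScx.hL k hk1⟩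
  have hRt : Rt b k C (hk Φ k) := ⟨hC0, hScx.hS k hk1, hScx.h1 k hk1⟩
  have hBR := hPoi.br
  have h1BR : (0 : ℝ) < 1 + BR := by linarith
  -- the weights with `T`
  have hRtT : Rt b k (C * B) (fun z => hk Φ k z * T z (t.2 z)) := by
    refine ⟨mul_nonneg hC0 hB0, fun x hx => ?_, fun x => ?_⟩
    · simp only [hScx.hS k hk1 x hx, zero_mul]
    · rw [abs_mul]
      calc |hk Φ k x| * |T x (t.2 x)| ≤ C / 4 ^ k * B :=
            mul_le_mul (hScx.h1 k hk1 x) (hPoi.bT _ _) (abs_nonneg _) (by positivity)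
        _ = C * B / 4 ^ k := by ring
  obtain ⟨P1, P5⟩ := H2 a φ Φ k1 hScx k hk1
  obtain ⟨Q1, Q2, -, -⟩ := P1 (C * B) _ hRtT
  -- the scaled `R`
  have hRs : ∀ z e, |(1 + BR)⁻¹ * R z e| ≤ B := by
    intro z e
    rw [abs_mul, abs_of_pos (inv_pos.2 h1BR)]
    have h := hPoi.bR z e
    calc (1 + BR)⁻¹ * |R z e| ≤ (1 + BR)⁻¹ * (1 + BR) :=
          mul_le_mul_of_nonneg_left (by linarith) (inv_pos.2 h1BR).le
      _ = 1 := inv_mul_cancel₀ h1BR.ne'
      _ ≤ B := hB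
  obtain ⟨R1, -, R3⟩ := H3 E ι U a (fun z e => (1 + BR)⁻¹ * R z e) φ Φ k1 hRs hScx k hk1 C _ hRt t
  obtain ⟨-, T1, T3⟩ := H3 E ι U a T φ Φ k1 hPoi.bT hScx k hk1 C _ hRt t
  obtain ⟨Y1, Y2, -⟩ := H1 E ι U a S φ Φ k1 hDat hScx (k - m) k hj1 hj2 C _ hWt t
  have hR : |VV R (Bx b k) (hk Φ k) t| ≤ (1 + BR) * (C3 * C) := by
    have e : VV R (Bx b k) (hk Φ k) t = (1 + BR) * VV (fun z e => (1 + BR)⁻¹ * R z e) (Bx b k) (hk Φ k) t := by
      rw [VV_scale, ← mul_assoc, mul_inv_cancel₀ h1BR.ne', one_mul]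
    rw [e, abs_mul, abs_of_pos h1BR]
    exact mul_le_mul_of_nonneg_left R1 h1BR.le
  have hR' : ∀ (i : ι) (e : Dir 2), |VV R (Bx b k) (hk Φ k) (nxt U t i e) - VV R (Bx b k) (hk Φ k) t| ≤
      (1 + BR) * (C3 * C * Gk b k t.1) := by
    intro i e
    have e1 : ∀ t' : MSt E, VV R (Bx b k) (hk Φ k) t' =
        (1 + BR) * VV (fun z e => (1 + BR)⁻¹ * R z e) (Bx b k) (hk Φ k) t' := by
      intro t'
      rw [VV_scale, ← mul_assoc, mul_inv_cancel₀ h1BR.ne', one_mul]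
    rw [e1, e1, ← mul_sub, abs_mul, abs_of_pos h1BR]
    exact mul_le_mul_of_nonneg_left (R3 i e).1 h1BR.le
  -- the bilinear form
  have hBL : |BL S T (Bx b (s + 1)) (Bx b k) (fun y z => hk Φ k z * Ek φ Φ k y z) t| ≤
      B * (C2 * (C * B)) := by
    rw [BL_eq]
    calc |∑ y ∈ Bx b (s + 1), S y (t.2 y) * ∑ z ∈ Bx b k, (hk Φ k z * T z (t.2 z)) * Ek φ Φ k y z|
        ≤ ∑ y ∈ Bx b (s + 1), |S y (t.2 y) * ∑ z ∈ Bx b k, (hk Φ k z * T z (t.2 z)) * Ek φ Φ k y z| :=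
          Finset.abs_sum_le_sum_abs _ _
      _ ≤ ∑ y ∈ Bx b (s + 1), B * |∑ z ∈ Bx b k, (hk Φ k z * T z (t.2 z)) * Ek φ Φ k y z| := by
          refine Finset.sum_le_sum fun y _ => ?_
          rw [abs_mul]
          exact mul_le_mul_of_nonneg_right (hDat.bd _ _) (abs_nonneg _)
      _ = B * ∑ y ∈ Bx b (s + 1), |∑ z ∈ Bx b k, (hk Φ k z * T z (t.2 z)) * Ek φ Φ k y z| := by
          rw [Finset.mul_sum]
      _ ≤ B * (C2 * (C * B)) := mul_le_mul_of_nonneg_left (Q1 (s + 1)) hB0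
  have hG := Gk_nonneg b k t.1
  have hBL' : ∀ (i : ι) (e : Dir 2),
      |BL S T (Bx b (s + 1)) (Bx b k) (fun y z => hk Φ k z * Ek φ Φ k y z) (nxt U t i e) -
        BL S T (Bx b (s + 1)) (Bx b k) (fun y z => hk Φ k z * Ek φ Φ k y z) t| ≤
      8 * B ^ 2 * C * C2 * Gk b k t.1 := by
    intro i e
    rw [(hINC E ι U t i e).2.2]
    have hα := abs_sub_le_two (hDat.bd t.1 (U.nx t.1 (t.2 t.1) i)) (hDat.bd t.1 (t.2 t.1))
    have hβ := abs_sub_le_two (hPoi.bT t.1 (U.nx t.1 (t.2 t.1) i)) (hPoi.bT t.1 (t.2 t.1))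
    set α := S t.1 (U.nx t.1 (t.2 t.1) i) - S t.1 (t.2 t.1) with hαdef
    set β := T t.1 (U.nx t.1 (t.2 t.1) i) - T t.1 (t.2 t.1) with hβdef
    -- first term
    have t1 : |if t.1 ∈ Bx b (s + 1) then α * ∑ z ∈ Bx b k, hk Φ k z * Ek φ Φ k t.1 z * T z (t.2 z) else 0| ≤
        2 * B ^ 2 * C * C2 * Gk b k t.1 := by
      split_ifs
      · have e1 : ∑ z ∈ Bx b k, hk Φ k z * Ek φ Φ k t.1 z * T z (t.2 z) =
            ∑ z ∈ Bx b k, (hk Φ k z * T z (t.2 z)) * Ek φ Φ k t.1 z :=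
          Finset.sum_congr rfl fun z _ => by ring
        rw [e1, abs_mul]
        calc |α| * |∑ z ∈ Bx b k, (hk Φ k z * T z (t.2 z)) * Ek φ Φ k t.1 z|
            ≤ (2 * B) * (C2 * (C * B) * Gk b k t.1) :=
              mul_le_mul hα (Q2 t.1) (abs_nonneg _) (by positivity)
          _ = 2 * B ^ 2 * C * C2 * Gk b k t.1 := by ring
      · rw [abs_zero]; positivity
    -- second term
    have t2 : |if t.1 ∈ Bx b k then β * ∑ y ∈ Bx b (s + 1), hk Φ k t.1 * Ek φ Φ k y t.1 * S y (t.2 y) else 0| ≤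
        2 * B ^ 2 * C * C2 * Gk b k t.1 := by
      split_ifs with hx
      · have e1 : |∑ y ∈ Bx b (s + 1), hk Φ k t.1 * Ek φ Φ k y t.1 * S y (t.2 y)| ≤
            (C / 4 ^ k) * B * (C2 * (k + 1)) := by
          calc |∑ y ∈ Bx b (s + 1), hk Φ k t.1 * Ek φ Φ k y t.1 * S y (t.2 y)|
              ≤ ∑ y ∈ Bx b (s + 1), |hk Φ k t.1 * Ek φ Φ k y t.1 * S y (t.2 y)| :=
                Finset.abs_sum_le_sum_abs _ _
            _ ≤ ∑ y ∈ Bx b (s + 1), ((C / 4 ^ k) * B) * |Ek φ Φ k y t.1| := by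
                refine Finset.sum_le_sum fun y _ => ?_
                rw [abs_mul, abs_mul]
                have h5 : |hk Φ k t.1| * |Ek φ Φ k y t.1| ≤ (C / 4 ^ k) * |Ek φ Φ k y t.1| :=
                  mul_le_mul_of_nonneg_right (hScx.h1 k hk1 _) (abs_nonneg _)
                calc |hk Φ k t.1| * |Ek φ Φ k y t.1| * |S y (t.2 y)|
                    ≤ ((C / 4 ^ k) * |Ek φ Φ k y t.1|) * B :=
                      mul_le_mul h5 (hDat.bd _ _) (abs_nonneg _) (by positivity)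
                  _ = ((C / 4 ^ k) * B) * |Ek φ Φ k y t.1| := by ring
            _ = ((C / 4 ^ k) * B) * ∑ y ∈ Bx b (s + 1), |Ek φ Φ k y t.1| := by rw [Finset.mul_sum]
            _ ≤ ((C / 4 ^ k) * B) * (C2 * (k + 1)) :=
                mul_le_mul_of_nonneg_left (P5 t.1 hx (s + 1)) (by positivity)
        rw [abs_mul, Gk_in b k t.1 hx]
        calc |β| * |∑ y ∈ Bx b (s + 1), hk Φ k t.1 * Ek φ Φ k y t.1 * S y (t.2 y)|
            ≤ (2 * B) * ((C / 4 ^ k) * B * (C2 * (k + 1))) :=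
              mul_le_mul hβ e1 (abs_nonneg _) (by positivity)
          _ = 2 * B ^ 2 * C * C2 * (((k : ℝ) + 1) / 4 ^ k) := by ring
          _ ≤ 2 * B ^ 2 * C * C2 * (1 / 2 ^ k) :=
              mul_le_mul_of_nonneg_left (succ_div_four k) (by positivity)
      · rw [abs_zero]; positivity
    -- third term
    have t3 : |if t.1 ∈ Bx b (s + 1) ∧ t.1 ∈ Bx b k then α * β * (hk Φ k t.1 * Ek φ Φ k t.1 t.1) else 0| ≤
        4 * B ^ 2 * C * C2 * Gk b k t.1 := by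
      split_ifs with hx
      · have hx2 := hx.2
        have e1 : |Ek φ Φ k t.1 t.1| ≤ C2 * (k + 1) :=
          (Finset.single_le_sum (f := fun y => |Ek φ Φ k y t.1|) (fun y _ => abs_nonneg _) hx2).trans
            (P5 t.1 hx2 k)
        rw [Gk_in b k t.1 hx2, abs_mul, abs_mul, abs_mul]
        have h6 : |α| * |β| ≤ (2 * B) * (2 * B) := mul_le_mul hα hβ (abs_nonneg _) (by positivity)
        have h7 : |hk Φ k t.1| * |Ek φ Φ k t.1 t.1| ≤ (C / 4 ^ k) * (C2 * (k + 1)) :=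
          mul_le_mul (hScx.h1 k hk1 _) e1 (abs_nonneg _) (by positivity)
        calc |α| * |β| * (|hk Φ k t.1| * |Ek φ Φ k t.1 t.1|)
            ≤ ((2 * B) * (2 * B)) * ((C / 4 ^ k) * (C2 * (k + 1))) :=
              mul_le_mul h6 h7 (by positivity) (by positivity)
          _ = 4 * B ^ 2 * C * C2 * (((k : ℝ) + 1) / 4 ^ k) := by ring
          _ ≤ 4 * B ^ 2 * C * C2 * (1 / 2 ^ k) :=
              mul_le_mul_of_nonneg_left (succ_div_four k) (by positivity)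
      · rw [abs_zero]; positivity
    refine (abs_add_le _ _).trans ?_
    have h8 := abs_add_le
      (if t.1 ∈ Bx b (s + 1) then α * ∑ z ∈ Bx b k, hk Φ k z * Ek φ Φ k t.1 z * T z (t.2 z) else 0)
      (if t.1 ∈ Bx b k then β * ∑ y ∈ Bx b (s + 1), hk Φ k t.1 * Ek φ Φ k y t.1 * S y (t.2 y) else 0)
    linarith
  constructor
  · have e : YY κ φ Φ S R T b m k s t - κ * k * ck Φ S b k t =
        (Yv κ φ Φ S b (k - m) k (hk Φ k) t - κ * k * VV S (Bx b k) (hk Φ k) t) -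
          VV R (Bx b k) (hk Φ k) t - ZZ φ (Φ k) T (Bx b k) (hk Φ k) t +
          BL S T (Bx b (s + 1)) (Bx b k) (fun y z => hk Φ k z * Ek φ Φ k y z) t := by
      unfold YY ck
      ring
    rw [e]
    have a1 := abs_le.1 Y1
    have a2 := abs_le.1 hR
    have a3 := abs_le.1 T1
    have a4 := abs_le.1 hBL
    have p1 : 0 ≤ C1 * C * BR := by positivity
    have p2 : 0 ≤ C3 * C * BR := by positivity
    have p3 : 0 ≤ B ^ 2 * C * C2 * BR := by positivity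
    have p4 : 0 ≤ B ^ 2 * C * C2 := by positivity
    rw [abs_le]
    constructor
    · linarith [a1.1, a2.2, a3.2, a4.1]
    · linarith [a1.2, a2.1, a3.1, a4.2]
  · intro i e
    have e1 : YY κ φ Φ S R T b m k s (nxt U t i e) - YY κ φ Φ S R T b m k s t =
        (Yv κ φ Φ S b (k - m) k (hk Φ k) (nxt U t i e) - Yv κ φ Φ S b (k - m) k (hk Φ k) t) -
          (VV R (Bx b k) (hk Φ k) (nxt U t i e) - VV R (Bx b k) (hk Φ k) t) -
          (ZZ φ (Φ k) T (Bx b k) (hk Φ k) (nxt U t i e) - ZZ φ (Φ k) T (Bx b k) (hk Φ k) t) +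
          (BL S T (Bx b (s + 1)) (Bx b k) (fun y z => hk Φ k z * Ek φ Φ k y z) (nxt U t i e) -
            BL S T (Bx b (s + 1)) (Bx b k) (fun y z => hk Φ k z * Ek φ Φ k y z) t) := by
      unfold YY
      ring
    rw [e1]
    have a1 := abs_le.1 (Y2 i e)
    have a2 := abs_le.1 (hR' i e)
    have a3 := abs_le.1 (T3 i e).2
    have a4 := abs_le.1 (hBL' i e)
    set g := Gk b k t.1 with hg
    have p1 : 0 ≤ C1 * C * BR * g := by positivity
    have p2 : 0 ≤ C3 * C * BR * g := by positivity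
    have p3 : 0 ≤ B ^ 2 * C * C2 * BR * g := by positivity
    have p4 : 0 ≤ B ^ 2 * C * C2 * g := by positivity
    rw [abs_le]
    constructor
    · linarith [a1.1, a2.2, a3.2, a4.1]
    · linarith [a1.2, a2.1, a3.1, a4.2]

end Pool.Agent.Helper59.MKV
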